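import Pool.Agent.Helper63.ML.Defs

/-!
# Block ML-PAT: pattern and transitivity for normalised complex numbers (for `MP_3d065d_co`)
-/

set_option autoImplicit false
namespace Pool.Agent.Helper63.ML
open Complex Metric
open scoped ComplexConjugate

private theorem s2 : Real.sqrt 3 * Real.sqrt 3 = 3 := Real.mul_self_sqrt (by norm_num)

private theorem s0 : 0 < Real.sqrt 3 := Real.sqrt_pos.2 (by norm_num)

private theorem om_mul_re (a : ℂ) : (om * a).re = -a.re / 2 - Real.sqrt 3 * a.im / 2 := by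
  simp [om, Complex.mul_re]; ring

private theorem om_mul_im (a : ℂ) : (om * a).im = Real.sqrt 3 * a.re / 2 - a.im / 2 := by
  simp [om, Complex.mul_im]; ring

private theorem omc_mul_re (a : ℂ) : (conj om * a).re = -a.re / 2 + Real.sqrt 3 * a.im / 2 := by
  simp [om, Complex.mul_re]; ring

private theorem omc_mul_im (a : ℂ) : (conj om * a).im = -(Real.sqrt 3 * a.re / 2) - a.im / 2 := by
  simp [om, Complex.mul_im]; ring

/-- Two of three numbers with sum `0`, large sum of squares and all `> -√3/2` cannot be `≥ 0`. -/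
private theorem not_two {x y z : ℝ} (h : x + y + z = 0) (hs : 3 / 2 ≤ x ^ 2 + y ^ 2 + z ^ 2)
    (hz : -(Real.sqrt 3 / 2) < z) (hx : 0 ≤ x) (hy : 0 ≤ y) : False := by
  have hz' : z = -(x + y) := by linarith
  subst hz'
  have h1 : x + y < Real.sqrt 3 / 2 := by linarith
  have h2 : (x + y) * (x + y) < Real.sqrt 3 / 2 * (Real.sqrt 3 / 2) :=
    mul_self_lt_mul_self (by linarith) h1
  have := s2
  nlinarith [mul_nonneg hx hy]

private theorem pat_core {x y z : ℝ} (h : x + y + z = 0) (hs : 3 / 2 ≤ x ^ 2 + y ^ 2 + z ^ 2)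
    (hx : -(Real.sqrt 3 / 2) < x) (hy : -(Real.sqrt 3 / 2) < y) (hz : -(Real.sqrt 3 / 2) < z) :
    (0 < x ∧ y < 0 ∧ z < 0) ∨ (x < 0 ∧ 0 < y ∧ z < 0) ∨ (x < 0 ∧ y < 0 ∧ 0 < z) := by
  have n1 : ¬ (0 ≤ x ∧ 0 ≤ y) := fun h' => not_two h hs hz h'.1 h'.2
  have n2 : ¬ (0 ≤ x ∧ 0 ≤ z) := fun h' =>
    not_two (x := x) (y := z) (z := y) (by linarith) (by linarith) hy h'.1 h'.2
  have n3 : ¬ (0 ≤ y ∧ 0 ≤ z) := fun h' =>
    not_two (x := y) (y := z) (z := x) (by linarith) (by linarith) hx h'.1 h'.2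
  rcases lt_or_ge x 0 with hx0 | hx0
  · rcases lt_or_ge y 0 with hy0 | hy0
    · exact Or.inr (Or.inr ⟨hx0, hy0, by linarith⟩)
    · have hz0 : z < 0 := by
        by_contra hc
        exact n3 ⟨hy0, not_lt.1 hc⟩
      exact Or.inr (Or.inl ⟨hx0, by linarith, hz0⟩)
  · have hy0 : y < 0 := by
      by_contra hc
      exact n1 ⟨hx0, not_lt.1 hc⟩
    have hz0 : z < 0 := by
      by_contra hc
      exact n2 ⟨hx0, not_lt.1 hc⟩
    exact Or.inl ⟨by linarith, hy0, hz0⟩

theorem pat_of {a : ℂ} (h1 : 1 ≤ normSq a) (h2 : -(Real.sqrt 3 / 2) < a.re)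
    (h3 : -(Real.sqrt 3 / 2) < (om * a).re) (h4 : -(Real.sqrt 3 / 2) < (conj om * a).re) :
    Pat a := by
  have hsum : a.re + (om * a).re + (conj om * a).re = 0 := by
    rw [om_mul_re, omc_mul_re]; ring
  have hsq : 3 / 2 ≤ a.re ^ 2 + (om * a).re ^ 2 + (conj om * a).re ^ 2 := by
    rw [om_mul_re, omc_mul_re]
    rw [Complex.normSq_apply] at h1
    have := s2
    nlinarith
  exact pat_core hsum hsq h2 h3 h4

/-- The bound `|√3 Im a| < Re a` for a number with pattern and positive real part. -/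
private theorem pat_pos {a : ℂ} (ha : Pat a) (h0 : 0 < a.re) :
    |Real.sqrt 3 * a.im| < a.re := by
  have h : (om * a).re < 0 ∧ (conj om * a).re < 0 := by
    rcases ha with h | h | h
    · exact h.2
    · exact absurd h.1 (not_lt.2 h0.le)
    · exact absurd h.1 (not_lt.2 h0.le)
  rw [om_mul_re, omc_mul_re] at h
  rw [abs_lt]
  constructor <;> linarith [h.1, h.2]

private theorem normSq_lt {a : ℂ} (h : |Real.sqrt 3 * a.im| < a.re) (h1 : a.re ≤ 1) :
    normSq a < 4 / 3 := by
  rw [Complex.normSq_apply]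
  have h2 := mul_self_lt_mul_self (abs_nonneg _) h
  rw [abs_mul_abs_self] at h2
  have h0 : 0 < a.re := lt_of_le_of_lt (abs_nonneg _) h
  have := s2
  nlinarith

/-- Three numbers of argument less than `30°` have a product with positive real part. -/
private theorem re_pos3 {a b d : ℂ} (ha : |Real.sqrt 3 * a.im| < a.re)
    (hb : |Real.sqrt 3 * b.im| < b.re) (hd : |Real.sqrt 3 * d.im| < d.re) :
    0 < (a * b * conj d).re := by
  have ha0 : 0 < a.re := lt_of_le_of_lt (abs_nonneg _) ha
  have hb0 : 0 < b.re := lt_of_le_of_lt (abs_nonneg _) hb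
  have hd0 : 0 < d.re := lt_of_le_of_lt (abs_nonneg _) hd
  have key : ∀ {u v : ℂ}, |Real.sqrt 3 * u.im| < u.re → |Real.sqrt 3 * v.im| < v.re →
      |3 * (u.im * v.im)| < u.re * v.re := by
    intro u v hu hv
    have h := mul_lt_mul'' hu hv (abs_nonneg _) (abs_nonneg _)
    rw [← abs_mul] at h
    have e : Real.sqrt 3 * u.im * (Real.sqrt 3 * v.im) = 3 * (u.im * v.im) := by
      have := s2
      calc Real.sqrt 3 * u.im * (Real.sqrt 3 * v.im)
          = (Real.sqrt 3 * Real.sqrt 3) * (u.im * v.im) := by ring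
        _ = 3 * (u.im * v.im) := by rw [s2]
    rwa [e] at h
  have h1 := abs_lt.1 (key ha hb)
  have h2 := abs_lt.1 (key ha hd)
  have h3 := abs_lt.1 (key hb hd)
  have e : (a * b * conj d).re = a.re * b.re * d.re - a.im * b.im * d.re + a.re * b.im * d.im +
      a.im * b.re * d.im := by
    simp [Complex.mul_re, Complex.mul_im]; ring
  rw [e]
  have e1 : 3 * (a.im * b.im) * d.re < a.re * b.re * d.re := mul_lt_mul_of_pos_right h1.2 hd0
  have e2 : -(a.re * d.re) * b.re < 3 * (a.im * d.im) * b.re := mul_lt_mul_of_pos_right h2.1 hb0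
  have e3 : -(b.re * d.re) * a.re < 3 * (b.im * d.im) * a.re := mul_lt_mul_of_pos_right h3.1 ha0
  nlinarith

private theorem cubic_ineq {A B C : ℝ} (hA : 1 ≤ A) (hB : 1 ≤ B) (hC : 1 ≤ C)
    (hA' : A < 4 / 3) (hB' : B < 4 / 3) (hC' : C < 4 / 3) :
    3 * (A * B * C) < (A + B + C - 1) ^ 2 := by
  obtain ⟨x, rfl⟩ : ∃ x, A = 1 + x := ⟨A - 1, by ring⟩
  obtain ⟨y, rfl⟩ : ∃ y, B = 1 + y := ⟨B - 1, by ring⟩
  obtain ⟨z, rfl⟩ : ∃ z, C = 1 + z := ⟨C - 1, by ring⟩
  have hx : 0 ≤ x := by linarith
  have hy : 0 ≤ y := by linarith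
  have hz : 0 ≤ z := by linarith
  have hx' : x < 1 / 3 := by linarith
  have hy' : y < 1 / 3 := by linarith
  have hz' : z < 1 / 3 := by linarith
  have hyz : y * z ≤ 1 / 9 := by nlinarith
  have h3 : x * (y * z) ≤ x * (1 / 9) := mul_le_mul_of_nonneg_left hyz hx
  nlinarith [sq_nonneg (x - y), sq_nonneg (y - z), sq_nonneg (x - z)]

/-- The last step: `2 Re (ω^{±1} y) ≤ √3 |y|` contradicts the Gram identity. -/
private theorem final_step {A B C t : ℝ} {y : ℂ} (hA : 1 ≤ A) (hB : 1 ≤ B) (hC : 1 ≤ C)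
    (hA' : A < 4 / 3) (hB' : B < 4 / 3) (hC' : C < 4 / 3) (hy : normSq y = A * B * C)
    (hy0 : 0 < y.re) (ht : 2 * t ≤ -y.re + |Real.sqrt 3 * y.im|)
    (hg : 1 + 2 * t = A + B + C) : False := by
  have h1 : A + B + C - 1 ≤ |Real.sqrt 3 * y.im| := by linarith
  have h2 : (A + B + C - 1) * (A + B + C - 1) ≤ |Real.sqrt 3 * y.im| * |Real.sqrt 3 * y.im| :=
    mul_self_le_mul_self (by linarith) h1
  rw [abs_mul_abs_self] at h2
  have h3 := cubic_ineq hA hB hC hA' hB' hC'
  rw [Complex.normSq_apply] at hy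
  have := s2
  have h4 : Real.sqrt 3 * y.im * (Real.sqrt 3 * y.im) = 3 * (y.im * y.im) := by
    calc Real.sqrt 3 * y.im * (Real.sqrt 3 * y.im)
        = (Real.sqrt 3 * Real.sqrt 3) * (y.im * y.im) := by ring
      _ = 3 * (y.im * y.im) := by rw [s2]
  nlinarith [mul_pos hy0 hy0]

private theorem om_sq : om * om = conj om := by
  apply Complex.ext
  · rw [om_mul_re]; simp [om]; nlinarith [s2]
  · rw [om_mul_im]; simp [om]; ring

private theorem omc_sq : conj om * conj om = om := by
  have := congrArg conj om_sq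
  simpa using this

private theorem om_omc : om * conj om = 1 := by
  apply Complex.ext
  · rw [om_mul_re]; simp [om]; nlinarith [s2]
  · rw [om_mul_im]; simp [om]; ring

private theorem normSq_om : normSq om = 1 := by
  rw [Complex.normSq_apply]; simp [om]; nlinarith [s2]

/-- `Pat` is invariant under multiplication by `ω`. -/
private theorem pat_om {c : ℂ} (h : Pat c) : Pat (om * c) := by
  unfold Pat at *
  rw [← mul_assoc, ← mul_assoc, om_sq, mul_comm (conj om) om, om_omc, one_mul]
  tauto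

private theorem pat_omc {c : ℂ} (h : Pat c) : Pat (conj om * c) := by
  unfold Pat at *
  rw [← mul_assoc, ← mul_assoc, omc_sq, om_omc, one_mul]
  tauto

theorem trans_of {a b c : ℂ} (ha : Pat a) (hb : Pat b) (hc : Pat c)
    (ha1 : a.re ≤ 1) (hb1 : b.re ≤ 1) (hc1 : c.re ≤ 1) (hc2 : (om * c).re ≤ 1)
    (hc3 : (conj om * c).re ≤ 1) (na : 1 ≤ normSq a) (nb : 1 ≤ normSq b) (nc : 1 ≤ normSq c)
    (hg : 1 + 2 * (a * b * conj c).re = normSq a + normSq b + normSq c)
    (ha0 : 0 < a.re) (hb0 : 0 < b.re) : 0 < c.re := by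
  by_contra hcon
  have pa := pat_pos ha ha0
  have pb := pat_pos hb hb0
  have na' := normSq_lt pa ha1
  have nb' := normSq_lt pb hb1
  have hcases : 0 < (om * c).re ∨ 0 < (conj om * c).re := by
    rcases hc with h | h | h
    · exact absurd h.1 hcon
    · exact Or.inl h.2.1
    · exact Or.inr h.2.2
  rcases hcases with h0 | h0
  · have pd := pat_pos (pat_om hc) h0
    have nd : normSq (om * c) = normSq c := by rw [Complex.normSq_mul, normSq_om, one_mul]
    have nd' := normSq_lt pd hc2
    rw [nd] at nd'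
    have hre := re_pos3 pa pb pd
    have hy : normSq (a * b * conj (om * c)) = normSq a * normSq b * normSq c := by
      rw [Complex.normSq_mul, Complex.normSq_mul, Complex.normSq_conj, nd]
    have e : a * b * conj c = om * (a * b * conj (om * c)) := by
      rw [map_mul]
      calc a * b * conj c = (om * conj om) * (a * b * conj c) := by rw [om_omc, one_mul]
        _ = om * (a * b * (conj om * conj c)) := by ring
    refine final_step na nb nc na' nb' nd' hy hre ?_ hg
    rw [e, om_mul_re]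
    have := neg_abs_le (Real.sqrt 3 * (a * b * conj (om * c)).im)
    linarith
  · have pd := pat_pos (pat_omc hc) h0
    have nd : normSq (conj om * c) = normSq c := by
      rw [Complex.normSq_mul, Complex.normSq_conj, normSq_om, one_mul]
    have nd' := normSq_lt pd hc3
    rw [nd] at nd'
    have hre := re_pos3 pa pb pd
    have hy : normSq (a * b * conj (conj om * c)) = normSq a * normSq b * normSq c := by
      rw [Complex.normSq_mul, Complex.normSq_mul, Complex.normSq_conj, nd]
    have e : a * b * conj c = conj om * (a * b * conj (conj om * c)) := by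
      rw [map_mul, Complex.conj_conj]
      calc a * b * conj c = (om * conj om) * (a * b * conj c) := by rw [om_omc, one_mul]
        _ = conj om * (a * b * (om * conj c)) := by ring
    refine final_step na nb nc na' nb' nd' hy hre ?_ hg
    rw [e, omc_mul_re]
    have := le_abs_self (Real.sqrt 3 * (a * b * conj (conj om * c)).im)
    linarith

end Pool.Agent.Helper63.ML
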